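import Mathlib

namespace Pool.Agent.P.MP_bbed2d_pr

open Classical in
/-- The value `argmin_y ∑_{w ∼ v} |f w - y| ^ p`. -/
noncomputable def relax {n : ℕ} (G : SimpleGraph (Fin n)) (p : ℝ) (f : Fin n → ℝ) (v : Fin n) :
    ℝ :=
  Classical.epsilon fun y : ℝ => ∀ z : ℝ,
    ∑ w ∈ G.neighborFinset v, |f w - y| ^ p ≤ ∑ w ∈ G.neighborFinset v, |f w - z| ^ p

/-- The profile after `t` updates, the update at step `t + 1` being made at the vertex `u t`. -/
noncomputable def traj {n : ℕ} (G : SimpleGraph (Fin n)) (p : ℝ) (f : Fin n → ℝ)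
    (u : ℕ → Fin n) : ℕ → Fin n → ℝ
  | 0 => f
  | t + 1 => Function.update (traj G p f u t) (u t) (relax G p (traj G p f u t) (u t))

open Classical in
/-- `h` agrees with `f` off `I` and is `p`-harmonic on `I`. -/
def IsHarmExt {n : ℕ} (G : SimpleGraph (Fin n)) (p : ℝ) (I : Finset (Fin n)) (f h : Fin n → ℝ) :
    Prop :=
  (∀ v, v ∉ I → h v = f v) ∧
    ∀ v ∈ I, ∑ w ∈ G.neighborFinset v, Real.sign (h v - h w) * |h v - h w| ^ (p - 1) = 0

/-- The first time the profile is uniformly `ε`-close to `h` (infinite if there is none). -/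
noncomputable def tau {n : ℕ} (G : SimpleGraph (Fin n)) (p : ℝ) (f h : Fin n → ℝ) (ε : ℝ)
    (u : ℕ → Fin n) : ENNReal :=
  sInf {s : ENNReal | ∃ t : ℕ, s = t ∧ ∀ v, |traj G p f u t v - h v| ≤ ε}

/-- The expectation of `tau` when the update vertices are independent and uniform on `I`. -/
noncomputable def expTau {n : ℕ} (G : SimpleGraph (Fin n)) (p : ℝ) (I : Finset (Fin n))
    (f h : Fin n → ℝ) (ε : ℝ) : ENNReal :=
  MeasureTheory.lintegral
    (MeasureTheory.Measure.infinitePi fun _ : ℕ => ProbabilityTheory.uniformOn (I : Set (Fin n)))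
    (tau G p f h ε)

end Pool.Agent.P.MP_bbed2d_pr
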