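import Pool.Agent.P.MP_bbed2d_pr.Defs

open Finset MeasureTheory ProbabilityTheory
open scoped ENNReal

namespace Pool.Agent.P.MP_bbed2d_pr

/-- the odd power map -/
noncomputable def psi (p x : ℝ) : ℝ := |x| ^ (p - 2) * x

lemma psi_neg (p x : ℝ) : psi p (-x) = -psi p x := by simp [psi]

lemma psi_zero (p : ℝ) : psi p 0 = 0 := by simp [psi]

lemma psi_of_nonneg {p x : ℝ} (hp : 1 < p) (hx : 0 ≤ x) : psi p x = x ^ (p - 1) := by
  rw [psi, abs_of_nonneg hx, ← Real.rpow_add_one' hx (by linarith)]
  congr 1; ring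

lemma psi_strictMono {p : ℝ} (hp : 1 < p) : StrictMono (psi p) := by
  refine strictMono_of_odd_strictMonoOn_nonneg (psi_neg p) fun x hx y hy hxy => ?_
  rw [psi_of_nonneg hp hx, psi_of_nonneg hp hy]
  exact Real.rpow_lt_rpow hx hxy (by linarith)

lemma sign_mul_eq_psi {p : ℝ} (hp : 1 < p) (x : ℝ) : Real.sign x * |x| ^ (p - 1) = psi p x := by
  rcases lt_trichotomy x 0 with h | h | h
  · have := psi_of_nonneg hp (neg_pos.mpr h).le
    rw [psi_neg] at this
    rw [Real.sign_of_neg h, abs_of_neg h, ← this]; ring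
  · simp [h, psi_zero]
  · rw [Real.sign_of_pos h, abs_of_pos h, psi_of_nonneg hp h.le, one_mul]

variable {n : ℕ} {G : SimpleGraph (Fin n)} {p : ℝ}

lemma exists_min {ι : Type*} (s : Finset ι) (c : ι → ℝ) (hp : 1 < p) :
    ∃ y : ℝ, ∀ z : ℝ, ∑ w ∈ s, |c w - y| ^ p ≤ ∑ w ∈ s, |c w - z| ^ p := by
  obtain ⟨R, hR0, hR⟩ : ∃ R : ℝ, 0 ≤ R ∧ ∀ w ∈ s, |c w| ≤ R :=
    ⟨∑ w ∈ s, |c w|, Finset.sum_nonneg fun _ _ => abs_nonneg _, fun w hw =>
      Finset.single_le_sum (f := fun w => |c w|) (fun _ _ => abs_nonneg _) hw⟩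
  have hc : Continuous fun y : ℝ => ∑ w ∈ s, |c w - y| ^ p :=
    continuous_finsetSum _ fun w _ =>
      (continuous_const.sub continuous_id).abs.rpow_const fun _ => Or.inr (by linarith)
  obtain ⟨y, -, hy⟩ := isCompact_Icc.exists_isMinOn (Set.nonempty_Icc.mpr (neg_le_self hR0))
    hc.continuousOn
  refine ⟨y, fun z => ?_⟩
  rcases le_total z (-R) with h1 | h1
  · refine (hy (a := -R) ⟨le_rfl, neg_le_self hR0⟩).trans (Finset.sum_le_sum fun w hw => ?_)
    have := abs_le.mp (hR w hw)
    refine Real.rpow_le_rpow (abs_nonneg _) ?_ (by linarith)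
    rw [abs_of_nonneg (by linarith), abs_of_nonneg (by linarith)]; linarith
  rcases le_total R z with h2 | h2
  · refine (hy (a := R) ⟨neg_le_self hR0, le_rfl⟩).trans (Finset.sum_le_sum fun w hw => ?_)
    have := abs_le.mp (hR w hw)
    refine Real.rpow_le_rpow (abs_nonneg _) ?_ (by linarith)
    rw [abs_of_nonpos (by linarith), abs_of_nonpos (by linarith)]; linarith
  · exact hy ⟨h1, h2⟩

open Classical in
lemma relax_eq (hp : 1 < p) (f : Fin n → ℝ) (v : Fin n) :
    ∑ w ∈ G.neighborFinset v, psi p (relax G p f v - f w) = 0 := by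
  have h := Classical.epsilon_spec (exists_min (G.neighborFinset v) f hp)
  change ∀ z : ℝ, ∑ w ∈ G.neighborFinset v, |f w - relax G p f v| ^ p ≤ _ at h
  set y := relax G p f v
  have hd : HasDerivAt (fun z : ℝ => ∑ w ∈ G.neighborFinset v, |f w - z| ^ p)
      (∑ w ∈ G.neighborFinset v, p * psi p (y - f w)) y := by
    refine HasDerivAt.fun_sum fun w _ => ?_
    have h1 := (hasDerivAt_abs_rpow (y - f w) hp).comp y ((hasDerivAt_id y).sub_const (f w))
    simp only [abs_sub_comm (f w)]
    exact h1.congr_deriv (by simp [psi, mul_assoc])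
  have hmin : IsLocalMin (fun z : ℝ => ∑ w ∈ G.neighborFinset v, |f w - z| ^ p) y :=
    Filter.Eventually.of_forall h
  have := hmin.hasDerivAt_eq_zero hd
  rw [← Finset.mul_sum] at this
  exact (mul_eq_zero.mp this).resolve_left (by linarith)

open Classical in
lemma le_relax (hp : 1 < p) (f : Fin n → ℝ) {v : Fin n} (hv : (G.neighborFinset v).Nonempty)
    {y : ℝ} (hy : ∑ w ∈ G.neighborFinset v, psi p (y - f w) ≤ 0) : y ≤ relax G p f v := by
  by_contra hcon
  push Not at hcon
  have := Finset.sum_lt_sum_of_nonempty hv (f := fun w => psi p (relax G p f v - f w))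
    (g := fun w => psi p (y - f w)) fun w _ => psi_strictMono hp (by linarith)
  rw [relax_eq hp] at this
  linarith

open Classical in
lemma relax_le (hp : 1 < p) (f : Fin n → ℝ) {v : Fin n} (hv : (G.neighborFinset v).Nonempty)
    {y : ℝ} (hy : 0 ≤ ∑ w ∈ G.neighborFinset v, psi p (y - f w)) : relax G p f v ≤ y := by
  by_contra hcon
  push Not at hcon
  have := Finset.sum_lt_sum_of_nonempty hv (g := fun w => psi p (relax G p f v - f w))
    (f := fun w => psi p (y - f w)) fun w _ => psi_strictMono hp (by linarith)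
  rw [relax_eq hp] at this
  linarith

/-- one update -/
noncomputable def step (G : SimpleGraph (Fin n)) (p : ℝ) (f : Fin n → ℝ) (v : Fin n) :
    Fin n → ℝ := Function.update f v (relax G p f v)

/-- the profile lies between `h` and `h + e` and agrees with `h` off `I` -/
def Reg (I : Finset (Fin n)) (h : Fin n → ℝ) (e : ℝ) (f : Fin n → ℝ) : Prop :=
  (∀ v, v ∉ I → f v = h v) ∧ ∀ v, h v ≤ f v ∧ f v ≤ h v + e

open Classical in
lemma Reg.step (hp : 1 < p) {I : Finset (Fin n)} {h f : Fin n → ℝ} {e : ℝ} (hf : Reg I h e f)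
    {v : Fin n} (hvI : v ∈ I) (hv : (G.neighborFinset v).Nonempty)
    (hh : ∑ w ∈ G.neighborFinset v, psi p (h v - h w) = 0) : Reg I h e (step G p f v) := by
  refine ⟨fun w hw => ?_, fun w => ?_⟩
  · have : w ≠ v := fun e => hw (e ▸ hvI)
    rw [MP_bbed2d_pr.step, Function.update_of_ne this, hf.1 w hw]
  · by_cases hw : w = v
    · subst hw
      rw [MP_bbed2d_pr.step, Function.update_self]
      constructor
      · refine le_relax hp f hv (le_of_le_of_eq (Finset.sum_le_sum fun u _ => ?_) hh)
        exact (psi_strictMono hp).monotone (by linarith [(hf.2 u).1])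
      · refine relax_le hp f hv (le_of_eq_of_le hh.symm (Finset.sum_le_sum fun u _ => ?_))
        exact (psi_strictMono hp).monotone (by linarith [(hf.2 u).2])
    · rw [MP_bbed2d_pr.step, Function.update_of_ne hw]
      exact hf.2 w

/-- the profile after a finite list of updates -/
noncomputable def run (G : SimpleGraph (Fin n)) (p : ℝ) (I : Finset (Fin n)) (f : Fin n → ℝ) :
    (T : ℕ) → (Fin T → I) → Fin n → ℝ
  | 0, _ => f
  | T + 1, x => step G p (run G p I f T (Fin.init x)) (x (Fin.last T))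

lemma traj_eq_run {I : Finset (Fin n)} (f : Fin n → ℝ) (u : ℕ → Fin n) :
    ∀ (T : ℕ) (x : Fin T → I), (∀ i : Fin T, u i = x i) → traj G p f u T = run G p I f T x
  | 0, _, _ => rfl
  | T + 1, x, hx => by
    have h1 := traj_eq_run f u T (Fin.init x) fun i => hx i.castSucc
    have h2 : u T = x (Fin.last T) := hx (Fin.last T)
    simp only [traj, run, step, h1, h2]

theorem expTau_ge {I : Finset (Fin n)} (hI : I.Nonempty) {f h : Fin n → ℝ} {a ε c A : ℝ}
    (Φ : (Fin n → ℝ) → ℝ) (hstep : ∀ e g, Reg I h e g → ∀ v ∈ I, Reg I h e (step G p g v))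
    (hf : Reg I h a f)
    (hdrift : ∀ g, Reg I h a g → I.card * (Φ g - c) ≤ ∑ v ∈ I, Φ (step G p g v))
    (hA : 0 < A) (hΦ1 : ∀ g, Reg I h a g → Φ g ≤ A) (hΦ2 : ∀ g, Reg I h ε g → Φ g ≤ A / 4)
    {T : ℕ} (hT : A / 2 ≤ Φ f - c * T) :
    ENNReal.ofReal (T / 3) ≤ expTau G p I f h ε := by
  classical
  have hreg : ∀ (t : ℕ) (x : Fin t → I), Reg I h a (run G p I f t x) := by
    intro t
    induction t with
    | zero => intro x; exact hf
    | succ t ih => intro x; exact hstep _ _ (ih _) _ (x _).2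
  have hsum : ∀ t : ℕ, (I.card : ℝ) ^ t * (Φ f - c * t) ≤ ∑ x : Fin t → I, Φ (run G p I f t x) := by
    intro t
    induction t with
    | zero => simp [run]
    | succ t ih =>
      rw [← (Fin.snocEquiv fun _ : Fin (t + 1) => I).sum_comp, Fintype.sum_prod_type_right]
      have e : ∀ (x : Fin t → I), ∑ v : I, Φ (run G p I f (t + 1)
          ((Fin.snocEquiv fun _ : Fin (t + 1) => I) (v, x)))
          = ∑ v ∈ I, Φ (step G p (run G p I f t x) v) := by
        intro x
        rw [← Finset.sum_coe_sort I]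
        refine Finset.sum_congr rfl fun v _ => ?_
        have : (Fin.snocEquiv fun _ : Fin (t + 1) => I) (v, x) = Fin.snoc x v := rfl
        rw [this]
        simp [run]
      simp only [e]
      refine le_trans ?_ (Finset.sum_le_sum fun x _ => hdrift _ (hreg t x))
      rw [← Finset.mul_sum, Finset.sum_sub_distrib]
      simp only [Finset.sum_const, Finset.card_univ, Fintype.card_fun, Fintype.card_coe,
        Fintype.card_fin, nsmul_eq_mul]
      push_cast
      have h0 : (0 : ℝ) ≤ I.card := by positivity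
      calc (I.card : ℝ) ^ (t + 1) * (Φ f - c * (t + 1))
          = I.card * (I.card ^ t * (Φ f - c * t) - I.card ^ t * c) := by ring
        _ ≤ _ := by gcongr
  let Bad : Finset (Fin T → I) := univ.filter fun x => ¬ Reg I h ε (run G p I f T x)
  have hm : (0 : ℝ) < I.card := by exact_mod_cast hI.card_pos
  have hBad : (I.card : ℝ) ^ T / 3 ≤ Bad.card := by
    have h1 : ∑ x : Fin T → I, Φ (run G p I f T x)
        ≤ ∑ x : Fin T → I, (A / 4 + if x ∈ Bad then 3 * A / 4 else 0) := by
      refine Finset.sum_le_sum fun x _ => ?_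
      by_cases hx : x ∈ Bad
      · have := hΦ1 _ (hreg T x)
        rw [if_pos hx]; linarith
      · have := hΦ2 _ (by simpa [Bad] using hx)
        rw [if_neg hx]; linarith
    rw [Finset.sum_add_distrib, Finset.sum_ite_mem] at h1
    simp only [Finset.sum_const, Finset.card_univ, Fintype.card_fun, Fintype.card_coe,
      Fintype.card_fin, nsmul_eq_mul, Finset.univ_inter] at h1
    push_cast at h1
    have h2 := hsum T
    have h3 : (I.card : ℝ) ^ T * (A / 2) ≤ I.card ^ T * (Φ f - c * T) := by gcongr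
    have h4 : A * ((I.card : ℝ) ^ T / 3) ≤ A * Bad.card := by linarith
    exact le_of_mul_le_mul_left h4 hA
  obtain ⟨v0, hv0⟩ := hI
  have : IsProbabilityMeasure (uniformOn (I : Set (Fin n))) :=
    isProbabilityMeasure_uniformOn I.finite_toSet ⟨v0, hv0⟩
  let μ : Measure (ℕ → Fin n) := Measure.infinitePi fun _ : ℕ => uniformOn (I : Set (Fin n))
  let ext : (Fin T → I) → ℕ → I := fun x i => if hi : i < T then x ⟨i, hi⟩ else ⟨v0, hv0⟩
  let C : (Fin T → I) → Set (ℕ → Fin n) := fun x => Set.pi (range T) fun i => {(ext x i).1}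
  have hC : ∀ x u, u ∈ C x ↔ ∀ i : Fin T, u i = x i := by
    intro x u
    simp only [C, Set.mem_pi, Finset.mem_coe, Finset.mem_range, Set.mem_singleton_iff]
    constructor
    · intro H i
      rw [H i i.2]; simp [ext]
    · intro H i hi
      rw [H ⟨i, hi⟩]; simp [ext, hi]
  have hCm : ∀ x, MeasurableSet (C x) := fun x =>
    MeasurableSet.pi (range T).countable_toSet fun i _ => measurableSet_singleton _
  have hCμ : ∀ x, μ (C x) = ((I.card : ℝ≥0∞)⁻¹) ^ T := by
    intro x
    rw [Measure.infinitePi_pi _ fun i _ => measurableSet_singleton _]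
    have : ∀ i, uniformOn (I : Set (Fin n)) {(ext x i).1} = (I.card : ℝ≥0∞)⁻¹ := by
      intro i
      rw [← Finset.coe_singleton, uniformOn_apply_finset,
        Finset.inter_singleton_of_mem (ext x i).2]
      simp
    simp [this]
  have hdisj : Set.PairwiseDisjoint (Bad : Set (Fin T → I)) C := by
    intro x _ y _ hxy
    refine Set.disjoint_left.mpr fun u hx hy => hxy ?_
    funext i
    exact Subtype.ext (((hC x u).mp hx i).symm.trans ((hC y u).mp hy i))
  have hU : MeasurableSet (⋃ x ∈ Bad, C x) := Finset.measurableSet_biUnion _ fun x _ => hCm x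
  have htau : ∀ u ∈ ⋃ x ∈ Bad, C x, (T : ℝ≥0∞) ≤ tau G p f h ε u := by
    intro u hu
    simp only [Set.mem_iUnion] at hu
    obtain ⟨x, hx, hu⟩ := hu
    have huI : ∀ i < T, u i ∈ I := fun i hi => by
      rw [(hC x u).mp hu ⟨i, hi⟩]; exact (x _).2
    refine le_sInf ?_
    rintro _ ⟨t, rfl, ht⟩
    by_contra hcon
    have htT : t ≤ T := by
      have : t < T := by exact_mod_cast not_le.mp hcon
      omega
    have h1 : ∀ s ≤ T, Reg I h a (traj G p f u s) := by
      intro s
      induction s with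
      | zero => intro _; exact hf
      | succ s ih => intro hs; exact hstep _ _ (ih (by omega)) _ (huI s (by omega))
    have h2 : ∀ s, t ≤ s → s ≤ T → Reg I h ε (traj G p f u s) := by
      intro s hs
      induction s, hs using Nat.le_induction with
      | base =>
        intro hs
        refine ⟨(h1 t hs).1, fun v => ⟨((h1 t hs).2 v).1, ?_⟩⟩
        linarith [(abs_le.mp (ht v)).2]
      | succ s _ ih => intro hs; exact hstep _ _ (ih (by omega)) _ (huI s (by omega))
    have h3 := h2 T htT le_rfl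
    rw [traj_eq_run f u T x ((hC x u).mp hu)] at h3
    exact (Finset.mem_filter.mp hx).2 h3
  calc ENNReal.ofReal (T / 3) ≤ T * (Bad.card * ((I.card : ℝ≥0∞)⁻¹) ^ T) := by
        have e : (T : ℝ≥0∞) * (Bad.card * ((I.card : ℝ≥0∞)⁻¹) ^ T)
            = ENNReal.ofReal (T * (Bad.card * ((I.card : ℝ)⁻¹) ^ T)) := by
          rw [ENNReal.ofReal_mul (by positivity), ENNReal.ofReal_mul (by positivity),
            ENNReal.ofReal_pow (by positivity), ENNReal.ofReal_inv_of_pos hm]
          simp
        rw [e]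
        refine ENNReal.ofReal_le_ofReal ?_
        rw [div_eq_mul_one_div]
        gcongr
        rw [inv_pow, ← div_eq_mul_inv, le_div_iff₀ (by positivity)]
        linarith
    _ = T * μ (⋃ x ∈ Bad, C x) := by
        rw [measure_biUnion_finset hdisj fun x _ => hCm x]
        simp [hCμ]
    _ = ∫⁻ u, (⋃ x ∈ Bad, C x).indicator (fun _ => (T : ℝ≥0∞)) u ∂μ := by
        rw [lintegral_indicator_const hU]
    _ ≤ _ := by
        refine lintegral_mono fun u => ?_
        exact Set.indicator_le (fun u hu => htau u hu) u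

end Pool.Agent.P.MP_bbed2d_pr
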