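import Pool.Agent.P.MP_bbed2d_pr.General

open Finset

namespace Pool.Agent.P.MP_bbed2d_pr

/-- the directed edges: a path on `0, …, m+1`, a pendant boundary vertex `j+m+1` at each inner
path vertex `j`, and a hub `2m+2` joined to every boundary vertex -/
def rel (m j k : ℕ) : Prop :=
  (k = j + 1 ∧ k ≤ m + 1) ∨ (1 ≤ j ∧ j ≤ m ∧ k = j + m + 1) ∨
    (k = 2 * m + 2 ∧ (j = 0 ∨ (m + 1 ≤ j ∧ j ≤ 2 * m + 1)))

/-- the graph -/
def GG (m : ℕ) : SimpleGraph (Fin (2 * m + 3)) where
  Adj j k := rel m j k ∨ rel m k j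
  symm := ⟨fun _ _ h => h.symm⟩
  loopless := ⟨fun j h => by simp only [rel, or_self] at h; omega⟩

/-- vertices from naturals -/
def vx (m i : ℕ) : Fin (2 * m + 3) := Fin.ofNat (2 * m + 3) i

lemma vx_val {m i : ℕ} (h : i < 2 * m + 3) : (vx m i : ℕ) = i := Nat.mod_eq_of_lt h

lemma vx_self {m : ℕ} (v : Fin (2 * m + 3)) : vx m v = v := Fin.ext (vx_val v.2)

/-- the interior -/
def II (m : ℕ) : Finset (Fin (2 * m + 3)) :=
  univ.filter fun v => (1 ≤ (v : ℕ) ∧ (v : ℕ) ≤ m) ∨ (v : ℕ) = 2 * m + 2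

lemma mem_II {m : ℕ} {v : Fin (2 * m + 3)} :
    v ∈ II m ↔ (1 ≤ (v : ℕ) ∧ (v : ℕ) ≤ m) ∨ (v : ℕ) = 2 * m + 2 := by simp [II]

lemma adj_iff {m : ℕ} {j k : Fin (2 * m + 3)} : (GG m).Adj j k ↔ rel m j k ∨ rel m k j := Iff.rfl

lemma II_eq (m : ℕ) :
    II m = insert (vx m (2 * m + 2)) ((range m).image fun i => vx m (i + 1)) := by
  ext v
  simp only [mem_II, mem_insert, mem_image, mem_range, Fin.ext_iff]
  rw [vx_val (by omega)]
  constructor
  · rintro (h | h)
    · exact Or.inr ⟨v - 1, by omega, by rw [vx_val (by omega)]; omega⟩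
    · exact Or.inl h
  · rintro (h | ⟨i, hi, h⟩)
    · exact Or.inr h
    · rw [vx_val (by omega)] at h
      omega

lemma sum_II {m : ℕ} (F : Fin (2 * m + 3) → ℝ) :
    ∑ v ∈ II m, F v = F (vx m (2 * m + 2)) + ∑ i ∈ range m, F (vx m (i + 1)) := by
  rw [II_eq, sum_insert, sum_image]
  · intro i hi j hj h
    have hi' := mem_range.mp hi
    have hj' := mem_range.mp hj
    have := congrArg Fin.val h
    simp only at this
    rw [vx_val (by omega), vx_val (by omega)] at this
    omega
  · simp only [mem_image, mem_range, Fin.ext_iff, not_exists, not_and]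
    intro i hi
    rw [vx_val (by omega), vx_val (by omega)]
    omega

lemma card_II (m : ℕ) : ((II m).card : ℝ) = m + 1 := by
  have := sum_II (m := m) fun _ => 1
  simp only [sum_const, nsmul_eq_mul, mul_one, card_range] at this
  rw [this]; ring

open Classical in
lemma sum_nbr {m i : ℕ} (hi : i < m) (F : Fin (2 * m + 3) → ℝ) :
    ∑ w ∈ (GG m).neighborFinset (vx m (i + 1)), F w
      = F (vx m i) + F (vx m (i + 2)) + F (vx m (i + m + 2)) := by
  have e : (GG m).neighborFinset (vx m (i + 1)) = {vx m i, vx m (i + 2), vx m (i + m + 2)} := by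
    ext w
    have := w.2
    simp only [SimpleGraph.mem_neighborFinset, adj_iff, rel, mem_insert, mem_singleton,
      Fin.ext_iff]
    rw [vx_val (by omega), vx_val (by omega), vx_val (by omega), vx_val (by omega)]
    omega
  have h1 : vx m (i + 2) ≠ vx m (i + m + 2) := by
    intro h
    have := congrArg Fin.val h
    rw [vx_val (by omega), vx_val (by omega)] at this
    omega
  have h2 : vx m i ∉ ({vx m (i + 2), vx m (i + m + 2)} : Finset _) := by
    simp only [mem_insert, mem_singleton, Fin.ext_iff]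
    rw [vx_val (by omega), vx_val (by omega), vx_val (by omega)]
    omega
  rw [e, sum_insert h2, sum_pair h1, add_assoc (F _)]

lemma adj_vx {m j k : ℕ} (hj : j < 2 * m + 3) (hk : k < 2 * m + 3) (h : rel m j k ∨ rel m k j) :
    (GG m).Adj (vx m j) (vx m k) := by
  rw [adj_iff, vx_val hj, vx_val hk]; exact h

open Classical in
lemma nbr_nonempty {m : ℕ} {v : Fin (2 * m + 3)} (hv : v ∈ II m) :
    ((GG m).neighborFinset v).Nonempty := by
  have := v.2
  rw [← vx_self v]
  rcases mem_II.mp hv with h | h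
  · exact ⟨vx m (v + 1), (SimpleGraph.mem_neighborFinset _ _ _).mpr
      (adj_vx (by omega) (by omega) (by unfold rel; omega))⟩
  · exact ⟨vx m 0, (SimpleGraph.mem_neighborFinset _ _ _).mpr
      (adj_vx (by omega) (by omega) (by unfold rel; omega))⟩

lemma edist_hub {m : ℕ} (v : Fin (2 * m + 3)) : (GG m).edist v (vx m (2 * m + 2)) ≤ 2 := by
  have := v.2
  rw [← vx_self v]
  by_cases h1 : (v : ℕ) = 2 * m + 2
  · rw [h1]; simp
  by_cases h2 : 1 ≤ (v : ℕ) ∧ (v : ℕ) ≤ m
  · have a1 : (GG m).Adj (vx m v) (vx m (v + m + 1)) :=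
      adj_vx (by omega) (by omega) (by unfold rel; omega)
    have a2 : (GG m).Adj (vx m (v + m + 1)) (vx m (2 * m + 2)) :=
      adj_vx (by omega) (by omega) (by unfold rel; omega)
    calc _ ≤ _ := SimpleGraph.edist_triangle (v := vx m (v + m + 1))
      _ = 2 := by
        rw [SimpleGraph.edist_eq_one_iff_adj.mpr a1, SimpleGraph.edist_eq_one_iff_adj.mpr a2]
        rfl
  · have a1 : (GG m).Adj (vx m v) (vx m (2 * m + 2)) :=
      adj_vx (by omega) (by omega) (by unfold rel; omega)
    rw [SimpleGraph.edist_eq_one_iff_adj.mpr a1]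
    exact one_le_two

lemma edist_le {m : ℕ} (u v : Fin (2 * m + 3)) : (GG m).edist u v ≤ 4 := by
  calc _ ≤ _ := SimpleGraph.edist_triangle (v := vx m (2 * m + 2))
    _ ≤ 2 + 2 := add_le_add (edist_hub u) (by rw [SimpleGraph.edist_comm]; exact edist_hub v)
    _ = 4 := by norm_num

lemma connected (m : ℕ) : (GG m).Connected :=
  ⟨fun u v => SimpleGraph.edist_ne_top_iff_reachable.mp
    (ne_top_of_le_ne_top (by simp) (edist_le u v))⟩

lemma diam_le (m : ℕ) : (GG m).diam ≤ 4 := by
  have : (GG m).ediam ≤ (4 : ℕ) := SimpleGraph.ediam_le_iff.mpr fun u v => edist_le u v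
  exact ENat.toNat_le_of_le_natCast this

lemma card_edge_le (m : ℕ) : (GG m).edgeSet.ncard ≤ 3 * (2 * m + 3) := by
  classical
  have hsub : (GG m).edgeSet ⊆ ((univ.image fun j : Fin (2 * m + 3) => s(j, vx m (j + 1))) ∪
      (univ.image fun j : Fin (2 * m + 3) => s(j, vx m (j + m + 1))) ∪
      (univ.image fun j : Fin (2 * m + 3) => s(j, vx m (2 * m + 2))) : Finset _) := by
    have key : ∀ j k : Fin (2 * m + 3), rel m j k →
        s(j, k) ∈ ((univ.image fun j : Fin (2 * m + 3) => s(j, vx m (j + 1))) ∪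
      (univ.image fun j : Fin (2 * m + 3) => s(j, vx m (j + m + 1))) ∪
      (univ.image fun j : Fin (2 * m + 3) => s(j, vx m (2 * m + 2))) : Finset _) := by
      intro j k h
      simp only [mem_union, mem_image, mem_univ, true_and]
      rcases h with h | h | h
      · exact Or.inl (Or.inl ⟨j, by rw [← h.1, vx_self]⟩)
      · exact Or.inl (Or.inr ⟨j, by rw [← h.2.2, vx_self]⟩)
      · exact Or.inr ⟨j, by rw [← h.1, vx_self]⟩
    intro e he
    induction e using Sym2.ind with
    | _ j k =>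
      rcases adj_iff.mp he with h | h
      · exact key j k h
      · rw [Sym2.eq_swap]; exact key k j h
  refine (Set.ncard_le_ncard hsub (Finset.finite_toSet _)).trans ?_
  rw [Set.ncard_coe_finset]
  refine (card_union_le _ _).trans ?_
  refine (Nat.add_le_add_right (card_union_le _ _) _).trans ?_
  have h1 := card_image_le (s := univ) (f := fun j : Fin (2 * m + 3) => s(j, vx m (j + 1)))
  have h2 := card_image_le (s := univ) (f := fun j : Fin (2 * m + 3) => s(j, vx m (j + m + 1)))
  have h3 := card_image_le (s := univ) (f := fun j : Fin (2 * m + 3) => s(j, vx m (2 * m + 2)))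
  simp only [card_univ, Fintype.card_fin] at h1 h2 h3
  omega

lemma indep {m : ℕ} (u v : Fin (2 * m + 3)) (hu : u ∉ II m) (hv : v ∉ II m) (hm : 1 ≤ m) :
    ¬ (GG m).Adj u v := by
  simp only [mem_II, adj_iff, rel] at *
  omega

end Pool.Agent.P.MP_bbed2d_pr
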