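import Pool.Agent.P.MP_bbed2d_pr.Graph

open Finset

namespace Pool.Agent.P.MP_bbed2d_pr

/-- the linear profile -/
noncomputable def h0 (m : ℕ) (v : Fin (2 * m + 3)) : ℝ :=
  if (v : ℕ) ≤ m + 1 then ((v : ℕ) : ℝ) / (m + 2) else (((v : ℕ) : ℝ) - (m + 1)) / (m + 2)

/-- the harmonic extension -/
noncomputable def hh (m : ℕ) (p : ℝ) : Fin (2 * m + 3) → ℝ :=
  step (GG m) p (h0 m) (vx m (2 * m + 2))

/-- the initial profile -/
noncomputable def f0 (m : ℕ) (p a : ℝ) (v : Fin (2 * m + 3)) : ℝ :=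
  hh m p v + if 1 ≤ (v : ℕ) ∧ (v : ℕ) ≤ m then a else 0

variable {m : ℕ} {p : ℝ}

lemma vx_ne {i j : ℕ} (hi : i < 2 * m + 3) (hj : j < 2 * m + 3) (h : i ≠ j) : vx m i ≠ vx m j := by
  intro e
  have := congrArg Fin.val e
  rw [vx_val hi, vx_val hj] at this
  exact h this

lemma hh_of_ne {v : Fin (2 * m + 3)} (hv : v ≠ vx m (2 * m + 2)) : hh m p v = h0 m v := by
  rw [hh, step, Function.update_of_ne hv]

lemma hh_path {i : ℕ} (hi : i ≤ m + 1) : hh m p (vx m i) = (i : ℝ) / (m + 2) := by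
  rw [hh_of_ne (vx_ne (by omega) (by omega) (by omega)), h0, vx_val (by omega), if_pos hi]

lemma hh_pin {i : ℕ} (hi : i < m) : hh m p (vx m (i + m + 2)) = ((i : ℝ) + 1) / (m + 2) := by
  rw [hh_of_ne (vx_ne (by omega) (by omega) (by omega)), h0, vx_val (by omega),
    if_neg (by omega)]
  push_cast; ring

lemma h0_mem (v : Fin (2 * m + 3)) : 0 ≤ h0 m v ∧ h0 m v ≤ 1 := by
  have hv : ((v : ℕ) : ℝ) ≤ 2 * m + 2 := by exact_mod_cast Nat.lt_succ_iff.mp v.2
  have hM : (0 : ℝ) < m + 2 := by positivity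
  unfold h0
  split_ifs with h
  · have : ((v : ℕ) : ℝ) ≤ m + 1 := by exact_mod_cast h
    exact ⟨by positivity, by rw [div_le_one hM]; linarith⟩
  · have : (m : ℝ) + 1 ≤ ((v : ℕ) : ℝ) := by exact_mod_cast (not_le.mp h).le
    exact ⟨div_nonneg (by linarith) hM.le, by rw [div_le_one hM]; linarith⟩

lemma hub_mem : vx m (2 * m + 2) ∈ II m := mem_II.mpr (Or.inr (vx_val (by omega)))

lemma path_mem {i : ℕ} (hi : i < m) : vx m (i + 1) ∈ II m :=
  mem_II.mpr (Or.inl (by rw [vx_val (by omega)]; omega))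

lemma hh_mem (hp : 1 < p) (v : Fin (2 * m + 3)) : 0 ≤ hh m p v ∧ hh m p v ≤ 1 := by
  by_cases hv : v = vx m (2 * m + 2)
  · rw [hv, hh, step, Function.update_self]
    constructor
    · refine le_relax hp _ (nbr_nonempty hub_mem) (Finset.sum_nonpos fun w _ => ?_)
      exact ((psi_strictMono hp).monotone (by linarith [(h0_mem w).1])).trans_eq (psi_zero p)
    · refine relax_le hp _ (nbr_nonempty hub_mem) (Finset.sum_nonneg fun w _ => ?_)
      exact (psi_zero p).symm.trans_le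
        ((psi_strictMono hp).monotone (by linarith [(h0_mem w).2]))
  · rw [hh_of_ne hv]; exact h0_mem v

open Classical in
lemma hh_harm (hp : 1 < p) {v : Fin (2 * m + 3)} (hv : v ∈ II m) :
    ∑ w ∈ (GG m).neighborFinset v, psi p (hh m p v - hh m p w) = 0 := by
  rw [II_eq, mem_insert, mem_image] at hv
  rcases hv with rfl | ⟨i, hi, rfl⟩
  · rw [← relax_eq (G := GG m) hp (h0 m) (vx m (2 * m + 2))]
    refine Finset.sum_congr rfl fun w hw => ?_
    have : w ≠ vx m (2 * m + 2) := ((SimpleGraph.mem_neighborFinset _ _ _).mp hw).ne'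
    rw [hh_of_ne this, hh, step, Function.update_self]
  · have hi := mem_range.mp hi
    rw [sum_nbr hi, hh_path (by omega), hh_path (by omega), hh_path (by omega), hh_pin hi]
    push_cast
    have e1 : ((i : ℝ) + 1) / (m + 2) - (i + 2) / (m + 2)
        = -(((i : ℝ) + 1) / (m + 2) - i / (m + 2)) := by ring
    rw [e1, psi_neg, sub_self, psi_zero]; ring

lemma psi_gap (hp : 2 < p) {g a η u s : ℝ} (hg : 0 < g) (ha : 0 < a) (hη : 0 ≤ η)
    (hkey : a ^ (p - 2) ≤ (g / 4) ^ (p - 2) * η) (hu : g / 4 ≤ u) (hs : s ≤ a) :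
    psi p u + psi p (-(u + 2 * η * a)) + psi p s ≤ 0 := by
  have hu0 : 0 < u := by linarith
  have ht : 0 ≤ 2 * η * a := by positivity
  have h1 : psi p s ≤ a ^ (p - 2) * a := by
    refine ((psi_strictMono (by linarith)).monotone hs).trans (le_of_eq ?_)
    rw [psi, abs_of_pos ha]
  have h2 : u ^ (p - 2) ≤ (u + 2 * η * a) ^ (p - 2) :=
    Real.rpow_le_rpow hu0.le (by linarith) (by linarith)
  have h3 : (g / 4) ^ (p - 2) ≤ u ^ (p - 2) :=
    Real.rpow_le_rpow (by positivity) hu (by linarith)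
  rw [psi_neg, psi, psi, abs_of_pos hu0, abs_of_pos (by linarith)]
  have h4 : u ^ (p - 2) * (u + 2 * η * a) ≤ (u + 2 * η * a) ^ (p - 2) * (u + 2 * η * a) := by
    gcongr
  have h5 : a ^ (p - 2) * a ≤ u ^ (p - 2) * η * a := by
    gcongr
    exact hkey.trans (by gcongr)
  have h6 : 0 ≤ u ^ (p - 2) * η * a := by positivity
  nlinarith

/-- the deviation along the path -/
noncomputable def dev (m : ℕ) (p : ℝ) (g : Fin (2 * m + 3) → ℝ) (i : ℕ) : ℝ :=
  g (vx m i) - hh m p (vx m i)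

lemma relax_ge (hp : 2 < p) {a η : ℝ} (ha : 0 < a) (ha' : a ≤ 1 / (m + 2) / 4) (hη : 0 ≤ η)
    (hη' : η ≤ 1) (hkey : a ^ (p - 2) ≤ (1 / (m + 2) / 4) ^ (p - 2) * η)
    {g : Fin (2 * m + 3) → ℝ} (hg : Reg (II m) (hh m p) a g) {i : ℕ} (hi : i < m) :
    hh m p (vx m (i + 1)) + (dev m p g i + dev m p g (i + 2)) / 2 - η * a
      ≤ relax (GG m) p g (vx m (i + 1)) := by
  refine le_relax (by linarith) g (nbr_nonempty (path_mem hi)) ?_
  rw [sum_nbr hi]
  have hpin : g (vx m (i + m + 2)) = hh m p (vx m (i + m + 2)) :=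
    hg.1 _ (by rw [mem_II, vx_val (by omega)]; omega)
  have b1 := hg.2 (vx m i)
  have b2 := hg.2 (vx m (i + 2))
  rw [hpin, hh_pin hi]
  unfold dev
  rw [hh_path (i := i) (by omega)] at b1 ⊢
  rw [hh_path (i := i + 2) (by omega)] at b2 ⊢
  rw [hh_path (i := i + 1) (by omega)]
  push_cast at *
  set x := g (vx m i)
  set z := g (vx m (i + 2))
  have hG : (0 : ℝ) < 1 / (m + 2) := by positivity
  have e0 : ((i : ℝ) + 1) / (m + 2) = i / (m + 2) + 1 / (m + 2) := by ring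
  have e2 : ((i : ℝ) + 2) / (m + 2) = i / (m + 2) + 2 * (1 / (m + 2)) := by ring
  rw [e2] at b2
  rw [e0, e2]
  obtain ⟨b1, b1'⟩ := b1
  obtain ⟨b2, b2'⟩ := b2
  set c := (i : ℝ) / (m + 2)
  set G := (1 : ℝ) / (m + 2)
  have hηa : η * a ≤ a := by nlinarith
  have hηa' : 0 ≤ η * a := by positivity
  have := psi_gap hp hG ha hη hkey
    (u := c + G + (x - c + (z - (c + 2 * G))) / 2 - η * a - x) (by linarith)
    (s := c + G + (x - c + (z - (c + 2 * G))) / 2 - η * a - (c + G)) (by linarith)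
  convert this using 4
  ring

/-- the weights -/
def wt (m i : ℕ) : ℝ := i * (m + 1 - i)

lemma wt_nonneg {i : ℕ} (hi : i < m) : 0 ≤ wt m (i + 1) := by
  have : (i : ℝ) ≤ m := by exact_mod_cast hi.le
  unfold wt; push_cast
  exact mul_nonneg (by positivity) (by linarith)

lemma sum_wt (k : ℕ) : ∑ i ∈ range k, wt m (i + 1)
    = (m + 1) * (k * (k + 1) / 2) - k * (k + 1) * (2 * k + 1) / 6 := by
  induction k with
  | zero => simp
  | succ k ih => rw [sum_range_succ, ih, wt]; push_cast; ring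

lemma sum_parts (δ : ℕ → ℝ) (k : ℕ) :
    ∑ i ∈ range k, wt m (i + 1) * ((δ i + δ (i + 2)) / 2 - δ (i + 1))
      = (wt m k * δ (k + 1) - wt m (k + 1) * δ k) / 2 + wt m 1 * δ 0 / 2
        - ∑ i ∈ range k, δ (i + 1) := by
  induction k with
  | zero => simp [wt]; ring
  | succ k ih => rw [sum_range_succ, ih, sum_range_succ]; unfold wt; push_cast; ring

/-- the potential -/
noncomputable def Pot (m : ℕ) (p : ℝ) (g : Fin (2 * m + 3) → ℝ) : ℝ :=
  ∑ i ∈ range m, wt m (i + 1) * dev m p g (i + 1)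

lemma Pot_le {e : ℝ} {g : Fin (2 * m + 3) → ℝ} (hg : Reg (II m) (hh m p) e g) :
    Pot m p g ≤ e * ∑ i ∈ range m, wt m (i + 1) := by
  rw [Finset.mul_sum]
  refine Finset.sum_le_sum fun i hi => ?_
  rw [mul_comm e]
  refine mul_le_mul_of_nonneg_left ?_ (wt_nonneg (mem_range.mp hi))
  unfold dev
  linarith [(hg.2 (vx m (i + 1))).2]

lemma Pot_hub (g : Fin (2 * m + 3) → ℝ) :
    Pot m p (step (GG m) p g (vx m (2 * m + 2))) = Pot m p g := by
  refine Finset.sum_congr rfl fun i hi => ?_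
  have hi := mem_range.mp hi
  rw [dev, step, Function.update_of_ne (vx_ne (by omega) (by omega) (by omega)), dev]

lemma Pot_path (g : Fin (2 * m + 3) → ℝ) {j : ℕ} (hj : j < m) :
    Pot m p (step (GG m) p g (vx m (j + 1))) = Pot m p g
      + wt m (j + 1) * (relax (GG m) p g (vx m (j + 1)) - g (vx m (j + 1))) := by
  have : ∀ i ∈ range m, wt m (i + 1) * dev m p (step (GG m) p g (vx m (j + 1))) (i + 1)
      = wt m (i + 1) * dev m p g (i + 1) + if i = j then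
        wt m (j + 1) * (relax (GG m) p g (vx m (j + 1)) - g (vx m (j + 1))) else 0 := by
    intro i hi
    have hi := mem_range.mp hi
    split_ifs with h
    · subst h
      rw [dev, step, Function.update_self, dev]; ring
    · rw [dev, step, Function.update_of_ne (vx_ne (by omega) (by omega) (by omega)), dev]; ring
  rw [Pot, Finset.sum_congr rfl this, Finset.sum_add_distrib, Finset.sum_ite_eq',
    if_pos (mem_range.mpr hj), Pot]

lemma drift (hp : 2 < p) {a η : ℝ} (ha : 0 < a) (ha' : a ≤ 1 / (m + 2) / 4) (hη : 0 ≤ η)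
    (hη' : η ≤ 1) (hkey : a ^ (p - 2) ≤ (1 / (m + 2) / 4) ^ (p - 2) * η)
    (hS : η * ∑ i ∈ range m, wt m (i + 1) ≤ m + 1)
    (g : Fin (2 * m + 3) → ℝ) (hg : Reg (II m) (hh m p) a g) :
    (II m).card * (Pot m p g - 2 * a) ≤ ∑ v ∈ II m, Pot m p (step (GG m) p g v) := by
  rw [sum_II, card_II, Pot_hub]
  have h1 : ∀ j ∈ range m, Pot m p g + (wt m (j + 1) *
      ((dev m p g j + dev m p g (j + 2)) / 2 - dev m p g (j + 1)) - a * (η * wt m (j + 1)))
      ≤ Pot m p (step (GG m) p g (vx m (j + 1))) := by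
    intro j hj
    have hj := mem_range.mp hj
    rw [Pot_path g hj]
    have h2 := relax_ge hp ha ha' hη hη' hkey hg hj
    have h3 := mul_le_mul_of_nonneg_left h2 (wt_nonneg hj)
    have e : dev m p g (j + 1) = g (vx m (j + 1)) - hh m p (vx m (j + 1)) := rfl
    rw [e]
    nlinarith
  have h2 := Finset.sum_le_sum h1
  rw [Finset.sum_add_distrib, Finset.sum_sub_distrib, sum_parts, ← Finset.mul_sum,
    ← Finset.mul_sum] at h2
  have d0 : dev m p g 0 = 0 := by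
    rw [dev, hg.1 _ (by rw [mem_II, vx_val (by omega)]; omega), sub_self]
  have d1 : dev m p g (m + 1) = 0 := by
    rw [dev, hg.1 _ (by rw [mem_II, vx_val (by omega)]; omega), sub_self]
  have w1 : wt m (m + 1) = 0 := by simp [wt]
  have h3 : ∑ i ∈ range m, dev m p g (i + 1) ≤ ∑ _i ∈ range m, a :=
    Finset.sum_le_sum fun i _ => by unfold dev; linarith [(hg.2 (vx m (i + 1))).2]
  rw [d0, d1, w1] at h2
  simp only [sum_const, card_range, nsmul_eq_mul] at h2 h3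
  have h4 := mul_le_mul_of_nonneg_left hS ha.le
  nlinarith

lemma f0_reg {a : ℝ} (ha : 0 < a) : Reg (II m) (hh m p) a (f0 m p a) := by
  refine ⟨fun v hv => ?_, fun v => ?_⟩
  · rw [f0, if_neg (fun h => hv (mem_II.mpr (Or.inl h))), add_zero]
  · unfold f0
    split_ifs <;> constructor <;> linarith

lemma f0_mem (hp : 1 < p) {a : ℝ} (ha : 0 < a) (ha' : a ≤ 1 / (m + 2) / 4) (v : Fin (2 * m + 3)) :
    0 ≤ f0 m p a v ∧ f0 m p a v ≤ 1 := by
  have := hh_mem hp v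
  unfold f0
  split_ifs with h
  · refine ⟨by linarith, ?_⟩
    rw [← vx_self v, hh_path (by omega)]
    have hM : (0 : ℝ) < m + 2 := by positivity
    have h1 : ((v : ℕ) : ℝ) ≤ m := by exact_mod_cast h.2
    have h2 : ((v : ℕ) : ℝ) / (m + 2) + 1 / (m + 2) ≤ 1 := by
      rw [← add_div, div_le_one hM]; linarith
    have h3 : (0 : ℝ) < 1 / (m + 2) := by positivity
    linarith
  · simpa using this

lemma Pot_f0 (a : ℝ) : Pot m p (f0 m p a) = a * ∑ i ∈ range m, wt m (i + 1) := by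
  rw [Finset.mul_sum]
  refine Finset.sum_congr rfl fun i hi => ?_
  have hi := mem_range.mp hi
  rw [dev, f0, if_pos (by rw [vx_val (by omega)]; omega)]; ring

theorem lower (hp : 2 < p) (hm : 1 ≤ m) {a η : ℝ} (ha : 0 < a) (ha' : a ≤ 1 / (m + 2) / 4)
    (hη : 0 ≤ η) (hη' : η * (m + 2) ^ 2 ≤ 1)
    (hkey : a ^ (p - 2) ≤ (1 / (m + 2) / 4) ^ (p - 2) * η) {T : ℕ}
    (hT : (T : ℝ) ≤ m * (m + 1) * (m + 2) / 24) :
    ENNReal.ofReal (T / 3) ≤ expTau (GG m) p (II m) (f0 m p a) (hh m p) (a / 4) := by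
  have hm' : (1 : ℝ) ≤ m := by exact_mod_cast hm
  have hS : ∑ i ∈ range m, wt m (i + 1) = m * (m + 1) * (m + 2) / 6 := by
    rw [sum_wt]; ring
  have hη1 : η ≤ 1 := by nlinarith
  refine expTau_ge ⟨_, hub_mem⟩ (Pot m p) (a := a) (c := 2 * a)
    (A := a * ∑ i ∈ range m, wt m (i + 1))
    (fun e g hg v hv => hg.step (by linarith) hv (nbr_nonempty hv) (hh_harm (by linarith) hv))
    (f0_reg ha) (drift hp ha ha' hη hη1 hkey ?_) ?_ (fun g hg => Pot_le hg)
    (fun g hg => (Pot_le hg).trans (le_of_eq (by ring))) ?_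
  · rw [hS]
    have : η * (m * (m + 2)) ≤ 6 := by nlinarith
    nlinarith
  · rw [hS]; positivity
  · rw [Pot_f0, hS]
    nlinarith

theorem main (p : ℝ) (hp : 2 < p) (C : ℝ) :
    ∃ (n : ℕ) (G : SimpleGraph (Fin n)) (I : Finset (Fin n)) (f h : Fin n → ℝ) (ε : ℝ),
      G.Connected ∧ I.Nonempty ∧ Iᶜ.Nonempty ∧ (∀ u v, u ∉ I → v ∉ I → ¬ G.Adj u v) ∧
      (∀ v, 0 ≤ f v ∧ f v ≤ 1) ∧ IsHarmExt G p I f h ∧ 0 < ε ∧ ε ≤ 1 / 2 ∧
      ENNReal.ofReal (C * I.card * G.edgeSet.ncard * G.diam * Real.log (n / ε))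
        < expTau G p I f h ε := by
  set r : ℝ := 2 / (p - 2) with hr
  have hr0 : 0 < r := div_pos two_pos (by linarith)
  obtain ⟨L, hL⟩ := exists_nat_gt (144 * |C| * (7 + r))
  have hL0 : (0 : ℝ) < L := lt_of_le_of_lt (by positivity) hL
  have hL1 : 1 ≤ L := by exact_mod_cast hL0
  obtain ⟨j, hj⟩ : ∃ j : ℕ, j = 96 * L := ⟨_, rfl⟩
  have hj2 : 96 ≤ j := by omega
  obtain ⟨m, hm⟩ : ∃ m : ℕ, m + 2 = j ^ 2 := ⟨j ^ 2 - 2, by
    have : 2 ≤ j ^ 2 := by nlinarith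
    omega⟩
  have hm2 : 2 ≤ m := by nlinarith
  have hM : (m : ℝ) + 2 = (j : ℝ) ^ 2 := by exact_mod_cast hm
  have hm2' : (2 : ℝ) ≤ m := by exact_mod_cast hm2
  have hj' : (96 : ℝ) ≤ j := by exact_mod_cast hj2
  have hM1 : (1 : ℝ) ≤ m + 2 := by linarith
  have hM0 : (0 : ℝ) < m + 2 := by linarith
  set θ : ℝ := ((m : ℝ) + 2) ^ (-r) with hθ
  have hθ0 : 0 < θ := Real.rpow_pos_of_pos hM0 _
  have hθ1 : θ ≤ 1 := Real.rpow_le_one_of_one_le_of_nonpos hM1 (by linarith)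
  set a : ℝ := 1 / (m + 2) / 4 * θ with ha_def
  have hG : (0 : ℝ) < 1 / (m + 2) / 4 := by positivity
  have hG1 : (1 : ℝ) / (m + 2) / 4 ≤ 1 := by
    have : (1 : ℝ) / (m + 2) ≤ 1 := by rw [div_le_one hM0]; exact hM1
    linarith
  have ha : 0 < a := by positivity
  have ha' : a ≤ 1 / (m + 2) / 4 := by nlinarith
  have hkey : a ^ (p - 2) ≤ (1 / (m + 2) / 4) ^ (p - 2) * (1 / ((m : ℝ) + 2) ^ 2) := by
    rw [ha_def, Real.mul_rpow hG.le hθ0.le, hθ, ← Real.rpow_mul hM0.le]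
    have : -r * (p - 2) = -(2 : ℝ) := by
      rw [hr, neg_mul, div_mul_cancel₀ _ (by linarith)]
    rw [this, Real.rpow_neg hM0.le, Real.rpow_two, one_div (_ ^ 2)]
  have hT : ((j ^ 5 * L : ℕ) : ℝ) ≤ m * (m + 1) * (m + 2) / 24 := by
    have e : (L : ℝ) = j / 96 := by rw [hj]; push_cast; ring
    push_cast
    have h1 : (j : ℝ) ^ 2 / 2 ≤ m := by linarith
    have h2 : (j : ℝ) ^ 2 / 2 ≤ m + 1 := by linarith
    calc (j : ℝ) ^ 5 * L = ((j : ℝ) ^ 2 / 2) * ((j : ℝ) ^ 2 / 2) * (j : ℝ) ^ 2 / 24 := by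
          rw [e]; ring
      _ ≤ (m : ℝ) * (m + 1) * (m + 2) / 24 := by rw [hM]; gcongr
  have hlow := lower hp (by omega) ha ha' (by positivity) (by rw [one_div, inv_mul_cancel₀]; positivity)
    hkey hT
  refine ⟨2 * m + 3, GG m, II m, f0 m p a, hh m p, a / 4, connected m, ⟨_, hub_mem⟩,
    ⟨vx m 0, by rw [mem_compl, mem_II, vx_val (by omega)]; omega⟩,
    fun u v hu hv => indep u v hu hv (by omega), f0_mem (by linarith) ha ha',
    ⟨fun v hv => ((f0_reg ha).1 v hv).symm, fun v hv => ?_⟩, by positivity, by linarith, ?_⟩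
  · simp only [sign_mul_eq_psi (show 1 < p by linarith)]
    exact hh_harm (by linarith) hv
  refine lt_of_lt_of_le ?_ hlow
  rw [ENNReal.ofReal_lt_ofReal_iff (by positivity)]
  have hlogM : Real.log (m + 2) ≤ 2 * j := by
    rw [hM, Real.log_pow]
    have := Real.log_le_sub_one_of_pos (show (0 : ℝ) < j by linarith)
    push_cast; linarith
  have hlog0 : 0 ≤ Real.log (((2 * m + 3 : ℕ) : ℝ) / (a / 4)) := by
    refine Real.log_nonneg ?_
    rw [one_le_div (by positivity)]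
    push_cast; linarith
  have hlog : Real.log (((2 * m + 3 : ℕ) : ℝ) / (a / 4)) ≤ (7 + r) * (2 * j) := by
    have h1 : ((2 * m + 3 : ℕ) : ℝ) / (a / 4) ≤ ((m : ℝ) + 2) ^ (7 + r) := by
      rw [div_le_iff₀ (by positivity), ha_def, hθ, Real.rpow_add hM0, Real.rpow_neg hM0.le]
      have hx : 0 < ((m : ℝ) + 2) ^ r := Real.rpow_pos_of_pos hM0 _
      have e : ((m : ℝ) + 2) ^ (7 : ℝ) * ((m : ℝ) + 2) ^ r
          * (1 / ((m : ℝ) + 2) / 4 * (((m : ℝ) + 2) ^ r)⁻¹ / 4) = ((m : ℝ) + 2) ^ 6 / 16 := by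
        rw [show (7 : ℝ) = (7 : ℕ) by norm_num, Real.rpow_natCast]
        field_simp
        norm_num
      rw [e]
      push_cast
      have h5 : (2 : ℝ) ^ 5 ≤ (m + 2) ^ 5 := by gcongr; linarith
      nlinarith
    calc _ ≤ Real.log (((m : ℝ) + 2) ^ (7 + r)) := Real.log_le_log (by positivity) h1
      _ = (7 + r) * Real.log (m + 2) := Real.log_rpow hM0 _
      _ ≤ _ := by gcongr
  have hI : ((II m).card : ℝ) ≤ j ^ 2 := by rw [card_II]; linarith
  have hE : ((GG m).edgeSet.ncard : ℝ) ≤ 6 * j ^ 2 := by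
    have : ((GG m).edgeSet.ncard : ℝ) ≤ 3 * (2 * m + 3) := by exact_mod_cast card_edge_le m
    linarith
  have hD : ((GG m).diam : ℝ) ≤ 4 := by exact_mod_cast diam_le m
  calc C * (II m).card * (GG m).edgeSet.ncard * (GG m).diam
        * Real.log (((2 * m + 3 : ℕ) : ℝ) / (a / 4))
      ≤ |C| * j ^ 2 * (6 * j ^ 2) * 4 * ((7 + r) * (2 * j)) := by
        gcongr
        exact le_abs_self C
    _ = j ^ 5 * (144 * |C| * (7 + r)) / 3 := by ring
    _ < _ := by
        push_cast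
        gcongr

end Pool.Agent.P.MP_bbed2d_pr
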